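import Pool.Agent.N175.ST.Main

/-!
# Exact uniform sampling of simplicial spanning trees in expected polynomial time

There is a coin-tossing machine (one fair coin for each step) which, for every finite simplicial
complex of dimension `d ≥ 1`, given as the list `L` of all its faces, halts with each spanning tree
as output with probability exactly one over the number of spanning trees (and with nothing else),
in expected polynomial time.

The machine runs the (lazy, dyadic) basis exchange chain of the column matroid of the boundary map
for polynomially many steps; with probability `2^{-s}` it does not use the result of the chain but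
samples, in exponential time, from the exactly computed distribution which corrects the
distribution of the chain to the uniform one. This correction is a probability distribution by the
theorem of Anari, Liu, Oveis Gharan and Vinzant, which is proved here.

The definitions are in `Pool.Agent.N175.ST.Stmt` and `Pool.Agent.N175.ST.Cplx`.
-/

set_option autoImplicit false

namespace Pool.Agent.Results.MP_d8fb5e_lc.ExactUniformSampler

open Pool.Agent.N175.ST Pool.Agent.H591R2 Pool.Agent.NPC

theorem result : ∃ (M : CoinMachine) (p : Polynomial ℕ), ∀ L : List (List ℕ), IsComplex L →
    1 ≤ dimC L →
    (trees L).Nonempty ∧
    Set.InjOn (treeCode L) (trees L) ∧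
    (∀ Y ∈ trees L, outProb M (bits L) (treeCode L Y) = 1 / (trees L).card) ∧
    (∀ y : List Bool, (∀ Y ∈ trees L, y ≠ treeCode L Y) → outProb M (bits L) y = 0) ∧
    M.expectedTime (bits L) ≤ (p.eval (bits L).length : ℕ) ∧
    ((∀ F ∈ L, ∀ v ∈ F, v < L.length) → M.expectedTime (bits L) ≤ (p.eval L.length : ℕ)) :=
  main

end Pool.Agent.Results.MP_d8fb5e_lc.ExactUniformSampler
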